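import Pool.Agent.Q118.NiceBase
set_option autoImplicit false

/-!
A finite family of oriented graphs containing an oriented forest which is not `k`-nice for any
large `k`.
-/

namespace Pool.Agent.Results.MP_a09a01_co.OrientedNotNice

open Pool.Agent.Q118.NiceBase

/-- An oriented graph: no loops, no two opposite arcs (and, arcs being a relation, no multiple
arcs). -/
structure Oriented (V : Type) where
  /-- there is an arc from the first to the second vertex -/
  Arc : V → V → Prop
  asymm : ∀ a b, Arc a b → ¬ Arc b a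

/-- The underlying undirected graph. -/
def Oriented.underlying {V : Type} (D : Oriented V) : SimpleGraph V where
  Adj a b := D.Arc a b ∨ D.Arc b a
  symm := ⟨fun _ _ h => h.symm⟩
  loopless := ⟨fun a h => by
    rcases h with h | h
    · exact D.asymm a a h h
    · exact D.asymm a a h h⟩

/-- Tournaments: every two distinct vertices are joined by an arc. -/
def Oriented.IsTournament {V : Type} (D : Oriented V) : Prop :=
  ∀ a b, a ≠ b → D.Arc a b ∨ D.Arc b a

/-- Oriented forests: the underlying graph has no cycle. -/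
def Oriented.IsForest {V : Type} (D : Oriented V) : Prop := D.underlying.IsAcyclic

/-- The chromatic number of an oriented graph. -/
noncomputable def Oriented.chi {V : Type} (D : Oriented V) : ℕ∞ := D.underlying.chromaticNumber

/-- The `k`-colouring `c` of the arcs of `D` is free of the family: no colour class contains a copy
of a member (the value of `c` at pairs that are not arcs plays no role). -/
def FreeColouring {V ι : Type} {m : ι → ℕ} (F : ∀ i, Oriented (Fin (m i))) (D : Oriented V) {k : ℕ}
    (c : V → V → Fin k) : Prop :=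
  ∀ i, ¬ ∃ (f : Fin (m i) ↪ V) (col : Fin k), ∀ a b, (F i).Arc a b →
    D.Arc (f a) (f b) ∧ c (f a) (f b) = col

/-- `p_k`: the largest number of vertices of a tournament with a free `k`-colouring. -/
noncomputable def pk {ι : Type} {m : ι → ℕ} (F : ∀ i, Oriented (Fin (m i))) (k : ℕ) : ℕ∞ :=
  sSup {x | ∃ (n : ℕ) (D : Oriented (Fin n)) (c : Fin n → Fin n → Fin k),
    D.IsTournament ∧ FreeColouring F D c ∧ x = n}

/-- `q_k`: the largest chromatic number of an oriented graph with a free `k`-colouring. -/
noncomputable def qk {ι : Type} {m : ι → ℕ} (F : ∀ i, Oriented (Fin (m i))) (k : ℕ) : ℕ∞ :=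
  sSup {x | ∃ (n : ℕ) (D : Oriented (Fin n)) (c : Fin n → Fin n → Fin k),
    FreeColouring F D c ∧ x = D.chi}

/-- The family is `k`-nice. -/
def IsNice {ι : Type} {m : ι → ℕ} (F : ∀ i, Oriented (Fin (m i))) (k : ℕ) : Prop :=
  pk F k = qk F k

instance : Finite (Oriented (Fin 190)) := by
  refine Finite.of_injective (fun D : Oriented (Fin 190) => D.Arc) ?_
  intro D E h
  cases D
  cases E
  cases h
  rfl

/-- The family: all oriented graphs on 190 vertices whose underlying graph is bad. -/
abbrev Idx : Type := {D : Oriented (Fin 190) // Bad D.underlying}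

def Fam (i : Idx) : Oriented (Fin 190) := i.1

/-- Orient a graph on `Fin n` from smaller to larger numbers. -/
def up {n : ℕ} (G : SimpleGraph (Fin n)) : Oriented (Fin n) where
  Arc a b := G.Adj a b ∧ a < b
  asymm := fun _ _ h h' => absurd h.2 (not_lt.2 h'.2.le)

theorem up_underlying {n : ℕ} (G : SimpleGraph (Fin n)) : (up G).underlying = G := by
  ext a b
  constructor
  · rintro (h | h)
    · exact h.1
    · exact h.1.symm
  · intro h
    rcases lt_or_gt_of_ne h.ne with h1 | h1
    · exact Or.inl ⟨h, h1⟩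
    · exact Or.inr ⟨h.symm, h1⟩

theorem pk_le (k : ℕ) (hk : 38 ≤ k) : pk (m := fun _ : Idx => 190) Fam k ≤ (5 * k + 1 : ℕ) := by
  classical
  refine sSup_le ?_
  rintro _ ⟨N, D, c, hD, hfree, rfl⟩
  by_contra hlt
  have hN : 5 * k + 2 ≤ N := by
    by_contra h
    apply hlt
    exact_mod_cast (show N ≤ 5 * k + 1 by omega)
  have hk0 : 0 < k := by omega
  let c' : Sym2 (Fin N) → Fin k := Sym2.lift ⟨fun a b =>
    if D.Arc a b then c a b else if D.Arc b a then c b a else ⟨0, hk0⟩, fun a b => by
      by_cases h1 : D.Arc a b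
      · simp [h1, D.asymm a b h1]
      · by_cases h2 : D.Arc b a
        · simp [h1, h2]
        · simp [h1, h2]⟩
  refine upper hN c' fun i hi => ?_
  obtain ⟨f, hf⟩ := Bad.local (cls c' i) (by rw [Fintype.card_fin]; omega) hi
  let E : Oriented (Fin 190) :=
    { Arc := fun a b => D.Arc (f a) (f b) ∧ c (f a) (f b) = i
      asymm := fun a b h h' => D.asymm _ _ h.1 h'.1 }
  have hE : E.underlying = (cls c' i).comap f := by
    ext a b
    rw [SimpleGraph.comap_adj]
    constructor
    · intro h
      have hne : f a ≠ f b := fun e => h.ne (f.injective e)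
      rcases h with h | h
      · refine ⟨hne, ?_⟩
        simp only [c', Sym2.lift_mk, if_pos h.1]
        exact h.2
      · refine ⟨hne, ?_⟩
        simp only [c', Sym2.lift_mk, if_neg (D.asymm _ _ h.1), if_pos h.1]
        exact h.2
    · rintro ⟨hne, h⟩
      rcases hD _ _ hne with h1 | h1
      · left
        refine ⟨h1, ?_⟩
        simpa only [c', Sym2.lift_mk, if_pos h1] using h
      · right
        refine ⟨h1, ?_⟩
        simpa only [c', Sym2.lift_mk, if_neg (D.asymm _ _ h1), if_pos h1] using h
  exact hfree ⟨E, by rw [hE]; exact hf⟩ ⟨f, i, fun a b hab => hab⟩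

theorem le_qk (p : ℕ) : ((5 * (p + 1) + 2 : ℕ) : ℕ∞) ≤
    qk (m := fun _ : Idx => 190) Fam (p + 1) := by
  refine le_trans ?_ (le_sSup ⟨_, up (G0 p), fun a b => c0 p s(a, b), ?_, rfl⟩)
  · unfold Oriented.chi
    rw [up_underlying]
    by_contra hlt
    push Not at hlt
    have htop : (G0 p).chromaticNumber ≠ ⊤ := ne_top_of_lt hlt
    obtain ⟨n, hn⟩ := ENat.ne_top_iff_exists.1 htop
    have hcol : (G0 p).Colorable n := by
      apply SimpleGraph.chromaticNumber_le_iff_colorable.1
      rw [hn]
    have h1 := G0_colorable hcol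
    rw [← hn] at hlt
    have h2 : n < 5 * (p + 1) + 2 := by exact_mod_cast hlt
    omega
  · rintro ⟨D, hD⟩ ⟨f, col, hf⟩
    refine cls0_not_bad p col (hD.mono f fun a b hab => ?_)
    rcases hab with h | h
    · obtain ⟨h1, h2⟩ := hf a b h
      exact ⟨h1.1, h2⟩
    · obtain ⟨h1, h2⟩ := hf b a h
      exact ⟨h1.1.symm, by rw [Sym2.eq_swap]; exact h2⟩

/-- There is a finite family of oriented graphs, one of which is an oriented forest, with
`p_k < q_k` for every `k ≥ 38`; so it is not true that every finite family with an oriented forest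
is `k`-nice for all large `k`. -/
theorem result :
    (∃ (ι : Type) (_ : Finite ι) (m : ι → ℕ) (F : ∀ i, Oriented (Fin (m i))),
      (∃ i, (F i).IsForest) ∧ ∀ k : ℕ, 38 ≤ k → pk F k < qk F k) ∧
    ¬ (∀ (ι : Type) [Finite ι] (m : ι → ℕ) (F : ∀ i, Oriented (Fin (m i))),
      (∃ i, (F i).IsForest) → ∃ k0 : ℕ, ∀ k : ℕ, k0 ≤ k → IsNice F k) := by
  have hfor : ∃ i : Idx, (Fam i).IsForest := by
    refine ⟨⟨up M0, by rw [up_underlying]; exact M0_bad⟩, ?_⟩
    unfold Oriented.IsForest Fam
    rw [up_underlying]
    exact M0_acyclic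
  have hlt : ∀ k : ℕ, 38 ≤ k → pk (m := fun _ : Idx => 190) Fam k <
      qk (m := fun _ : Idx => 190) Fam k := by
    intro k hk
    obtain ⟨p, rfl⟩ : ∃ p, k = p + 1 := ⟨k - 1, by omega⟩
    refine lt_of_le_of_lt (pk_le (p + 1) hk) (lt_of_lt_of_le ?_ (le_qk p))
    exact_mod_cast (show 5 * (p + 1) + 1 < 5 * (p + 1) + 2 by omega)
  refine ⟨⟨Idx, inferInstance, fun _ => 190, Fam, hfor, hlt⟩, fun hall => ?_⟩
  obtain ⟨k0, hk0⟩ := hall Idx (fun _ => 190) Fam hfor
  have h1 := hk0 (k0 + 38) (by omega)
  exact absurd h1 (hlt (k0 + 38) (by omega)).ne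

end Pool.Agent.Results.MP_a09a01_co.OrientedNotNice
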